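import Mathlib

/-!
# An extension of the AP-avoiding heap game with a much denser set of P-positions

There is an extension `R` of the ruleset `M₀ = {{d, 2d} : d ≥ 1}` with
`limsup A_R(x) / x ^ (log 2 / log 3) = ∞`.
-/

namespace Pool.Agent.Results.MP_c84e26_co.DenserPPositions

open Finset Filter Real

/-- A ruleset: a set of finite nonempty sets of positive integers. -/
def IsRuleset (R : Set (Finset ℕ)) : Prop := ∀ M ∈ R, M.Nonempty ∧ ∀ m ∈ M, 0 < m

/-- The recursion for the P-positions with one heap: `n` is one unless there is an `M ∈ R` with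
`max M ≤ n` such that all `n - m`, `m ∈ M`, are (for `m > 0` one has `n - m < n`). -/
def isP (R : Set (Finset ℕ)) (n : ℕ) : Prop :=
  ¬ ∃ M ∈ R, (∀ m ∈ M, m ≤ n) ∧ ∀ m ∈ M, ∀ _h : n - m < n, isP R (n - m)
termination_by n

/-- The set `A_R`. -/
def PSet (R : Set (Finset ℕ)) : Set ℕ := {n | isP R n}

/-- The counting function `A_R(x)`. -/
noncomputable def count (R : Set (Finset ℕ)) (x : ℕ) : ℕ := {i | i ∈ PSet R ∧ i < x}.ncard

/-- The base ruleset. -/
def M0 : Set (Finset ℕ) := {M | ∃ d : ℕ, 1 ≤ d ∧ M = {d, 2 * d}}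

/-- The set `A_R` satisfies the defining recursion of the problem. -/
lemma mem_PSet (R : Set (Finset ℕ)) (hR : IsRuleset R) (n : ℕ) :
    n ∈ PSet R ↔ ¬ ∃ M ∈ R, (∀ m ∈ M, m ≤ n) ∧ ∀ m ∈ M, n - m ∈ PSet R := by
  show isP R n ↔ _
  rw [isP]
  apply not_congr
  constructor
  · rintro ⟨M, hM, h1, h2⟩
    refine ⟨M, hM, h1, fun m hm => h2 m hm ?_⟩
    have := (hR M hM).2 m hm
    have := h1 m hm
    omega
  · rintro ⟨M, hM, h1, h2⟩
    exact ⟨M, hM, h1, fun m hm _ => h2 m hm⟩

/-- A dense set without 3-term progressions below `3 ^ k`. -/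
noncomputable def t (k : ℕ) : Finset ℕ := (rothNumberNat_spec (3 ^ k)).choose

lemma t_sub (k : ℕ) : t k ⊆ range (3 ^ k) := (rothNumberNat_spec (3 ^ k)).choose_spec.1
lemma t_card (k : ℕ) : (t k).card = rothNumberNat (3 ^ k) :=
  (rothNumberNat_spec (3 ^ k)).choose_spec.2.1
lemma t_free (k : ℕ) : ThreeAPFree (t k : Set ℕ) := (rothNumberNat_spec (3 ^ k)).choose_spec.2.2

/-- The union of the translates `2 · 3 ^ k + t k`. -/
def C : Set ℕ := {c | ∃ k, ∃ s ∈ t k, c = 2 * 3 ^ k + s}

lemma block {k s : ℕ} (hs : s ∈ t k) : s < 3 ^ k := mem_range.mp (t_sub k hs)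

lemma C_ge {c : ℕ} (hc : c ∈ C) : 2 ≤ c := by
  obtain ⟨k, s, _, rfl⟩ := hc
  have : 0 < 3 ^ k := by positivity
  omega

/-- An element of `C` in the range `(3 ^ k, 3 ^ (k + 1))` belongs to block `k`. -/
lemma in_block {c k : ℕ} (hc : c ∈ C) (h1 : 3 ^ k ≤ c) (h2 : c < 3 ^ (k + 1)) :
    ∃ s ∈ t k, c = 2 * 3 ^ k + s := by
  obtain ⟨j, s, hs, rfl⟩ := hc
  have hb := block hs
  have hjk : j = k := by
    rcases lt_trichotomy j k with h | h | h
    · exfalso
      have h3 : 3 ^ (j + 1) ≤ 3 ^ k := Nat.pow_le_pow_right (by norm_num) h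
      rw [pow_succ] at h3
      omega
    · exact h
    · exfalso
      have h3 : 3 ^ (k + 1) ≤ 3 ^ j := Nat.pow_le_pow_right (by norm_num) h
      omega
  subst hjk
  exact ⟨s, hs, rfl⟩

lemma C_free {x y z : ℕ} (hx : x = 0 ∨ x ∈ C) (hy : y = 0 ∨ y ∈ C) (hz : z = 0 ∨ z ∈ C)
    (hxy : x < y) (h : x + z = 2 * y) : False := by
  have hz' : z ∈ C := by
    rcases hz with h0 | hz
    · omega
    · exact hz
  have hy' : y ∈ C := by
    rcases hy with h0 | hy
    · omega
    · exact hy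
  obtain ⟨k, s, hs, rfl⟩ := hz'
  have hb := block hs
  have hp : 3 ^ (k + 1) = 3 * 3 ^ k := by rw [pow_succ]; ring
  obtain ⟨s', hs', rfl⟩ := in_block (k := k) hy' (by omega) (by omega)
  have hb' := block hs'
  have hx' : x ∈ C := by
    rcases hx with h0 | hx
    · omega
    · exact hx
  obtain ⟨s'', hs'', rfl⟩ := in_block (k := k) hx' (by omega) (by omega)
  have := t_free k (by exact_mod_cast hs'') (by exact_mod_cast hs') (by exact_mod_cast hs)
    (by omega : s'' + s = s' + s')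
  omega

/-- The set of P-positions of the extension. -/
def A : Set ℕ := {a | a = 1 ∨ ∃ c, (c = 0 ∨ c ∈ C) ∧ a = 2 * c}

lemma zero_mem : 0 ∈ A := Or.inr ⟨0, Or.inl rfl, rfl⟩
lemma one_mem : 1 ∈ A := Or.inl rfl

lemma A_free {x y z : ℕ} (hx : x ∈ A) (hy : y ∈ A) (hz : z ∈ A) (hxy : x < y)
    (h : x + z = 2 * y) : False := by
  rcases hz with rfl | ⟨z', hz', rfl⟩
  · omega
  · rcases hy with rfl | ⟨y', hy', rfl⟩
    · have : z' = 1 := by omega
      subst this
      rcases hz' with h | h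
      · omega
      · have := C_ge h
        omega
    · rcases hx with rfl | ⟨x', hx', rfl⟩
      · omega
      · exact C_free hx' hy' hz' (by omega) (by omega)

lemma no_consecutive {s : ℕ} (hs : 1 ≤ s) (h1 : s ∈ A) (h2 : s + 1 ∈ A) : False := by
  rcases h1 with rfl | ⟨c, hc, rfl⟩
  · rcases h2 with h | ⟨c, hc, h⟩
    · omega
    · rcases hc with h0 | hc
      · omega
      · have := C_ge hc
        omega
  · rcases h2 with h | ⟨c', hc', h⟩
    · omega
    · omega

/-- The new rule made for a number `n` outside `A`. -/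
noncomputable def rule (n : ℕ) : Finset ℕ := by
  classical exact ((range n).filter (· ∈ A)).image (fun a => n - a)

lemma mem_rule {n m : ℕ} : m ∈ rule n ↔ ∃ a, a < n ∧ a ∈ A ∧ n - a = m := by
  classical
  simp only [rule, mem_image, mem_filter, mem_range, and_assoc]

/-- The additional rules. -/
def M' : Set (Finset ℕ) := {M | ∃ n, n ∉ A ∧ M = rule n}

lemma two_le_of_notMem {n : ℕ} (hn : n ∉ A) : 2 ≤ n := by
  by_contra hlt
  have : n = 0 ∨ n = 1 := by omega
  rcases this with rfl | rfl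
  · exact hn zero_mem
  · exact hn one_mem

lemma isRuleset : IsRuleset (M0 ∪ M') := by
  rintro M (⟨d, hd, rfl⟩ | ⟨n, hn, rfl⟩)
  · refine ⟨⟨d, by simp⟩, fun m hm => ?_⟩
    simp only [mem_insert, mem_singleton] at hm
    omega
  · have h2 := two_le_of_notMem hn
    refine ⟨⟨n, mem_rule.mpr ⟨0, by omega, zero_mem, by omega⟩⟩, fun m hm => ?_⟩
    obtain ⟨a, ha, _, rfl⟩ := mem_rule.mp hm
    omega

lemma PSet_eq : PSet (M0 ∪ M') = A := by
  ext n
  induction n using Nat.strong_induction_on with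
  | _ n ih =>
    rw [mem_PSet _ isRuleset]
    constructor
    · intro h
      by_contra hn
      have h2 := two_le_of_notMem hn
      apply h
      refine ⟨rule n, Or.inr ⟨n, hn, rfl⟩, fun m hm => ?_, fun m hm => ?_⟩
      · obtain ⟨a, ha, _, rfl⟩ := mem_rule.mp hm
        omega
      · obtain ⟨a, ha, haA, rfl⟩ := mem_rule.mp hm
        rw [ih _ (by omega)]
        rwa [show n - (n - a) = a by omega]
    · rintro hn ⟨M, hM, h1, h2⟩
      rcases hM with ⟨d, hd, rfl⟩ | ⟨k, hk, rfl⟩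
      · have e1 := h1 (2 * d) (by simp)
        have e2 := h2 (2 * d) (by simp)
        have e3 := h2 d (by simp)
        rw [ih _ (by omega)] at e2 e3
        exact A_free e2 e3 hn (by omega) (by omega)
      · have hk2 := two_le_of_notMem hk
        have m0 : k ∈ rule k := mem_rule.mpr ⟨0, by omega, zero_mem, by omega⟩
        have m1 : k - 1 ∈ rule k := mem_rule.mpr ⟨1, by omega, one_mem, rfl⟩
        have e1 := h1 k m0
        have hne : n ≠ k := by
          rintro rfl
          exact hk hn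
        have e2 := h2 k m0
        have e3 := h2 (k - 1) m1
        rw [ih _ (by omega)] at e2 e3
        rw [show n - (k - 1) = (n - k) + 1 by omega] at e3
        exact no_consecutive (by omega) e2 e3

lemma count_ge (k : ℕ) : rothNumberNat (3 ^ k) ≤ count (M0 ∪ M') (2 * 3 ^ (k + 1)) := by
  rw [← t_card, count, PSet_eq]
  have hfin : {i | i ∈ A ∧ i < 2 * 3 ^ (k + 1)}.Finite :=
    (Set.finite_lt_nat (2 * 3 ^ (k + 1))).subset fun i hi => hi.2
  have hinj : Function.Injective (fun s : ℕ => 2 * (2 * 3 ^ k + s)) := by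
    intro a b hab
    simp only at hab
    omega
  rw [← Set.ncard_coe_finset, ← Set.ncard_image_of_injective _ hinj]
  apply Set.ncard_le_ncard _ hfin
  rintro _ ⟨s, hs, rfl⟩
  have hs' : s ∈ t k := by exact_mod_cast hs
  have hb := block hs'
  refine ⟨Or.inr ⟨_, Or.inr ⟨k, s, hs', rfl⟩, rfl⟩, ?_⟩
  show 2 * (2 * 3 ^ k + s) < _
  rw [pow_succ]
  omega

lemma alpha_lt : log 2 / log 3 < 1 := by
  rw [div_lt_one (Real.log_pos (by norm_num))]
  exact Real.log_lt_log (by norm_num) (by norm_num)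

lemma growth : Tendsto (fun k : ℕ => ((3 ^ k : ℕ) : ℝ) * exp (-4 * √(log ((3 ^ k : ℕ) : ℝ))) /
    (((2 * 3 ^ (k + 1) : ℕ) : ℝ) ^ (log 2 / log 3))) atTop atTop := by
  set α := log 2 / log 3 with hα
  have hl3 : 0 < log 3 := Real.log_pos (by norm_num)
  have hs : Tendsto (fun k : ℕ => √((k : ℝ) * log 3)) atTop atTop :=
    Real.tendsto_sqrt_atTop.comp (tendsto_natCast_atTop_atTop.atTop_mul_const hl3)
  have h1 : Tendsto (fun k : ℕ => √((k : ℝ) * log 3) * ((1 - α) * √((k : ℝ) * log 3) - 4))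
      atTop atTop := by
    apply hs.atTop_mul_atTop₀
    apply tendsto_atTop_add_const_right
    exact hs.const_mul_atTop (by linarith [alpha_lt])
  have h2 := (Real.tendsto_exp_atTop.comp h1).atTop_div_const (show (0 : ℝ) < 6 ^ α by positivity)
  refine h2.congr fun k => ?_
  have e0 : (0 : ℝ) ≤ (k : ℝ) * log 3 := by positivity
  have e1 : ((3 ^ k : ℕ) : ℝ) = exp ((k : ℝ) * log 3) := by
    rw [mul_comm, Real.exp_mul, Real.exp_log (by norm_num)]
    push_cast
    rw [Real.rpow_natCast]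
  have e2 : ((2 * 3 ^ (k + 1) : ℕ) : ℝ) = 6 * exp ((k : ℝ) * log 3) := by
    rw [← e1]; push_cast; ring
  have e3 : √((k : ℝ) * log 3) * √((k : ℝ) * log 3) = (k : ℝ) * log 3 := Real.mul_self_sqrt e0
  rw [e2, e1, Real.log_exp, Real.mul_rpow (by norm_num) (exp_pos _).le, ← Real.exp_mul,
    Function.comp_apply, ← Real.exp_add, mul_comm ((6 : ℝ) ^ α), ← div_div, ← Real.exp_sub]
  congr 2
  linear_combination (1 - α) * e3

/-- **Denser sets of P-positions.**  There is an extension `R = M₀ ∪ M'` of the base ruleset with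
`limsup_{x → ∞} A_R(x) / x ^ (log 2 / log 3) = ∞`. -/
theorem result : ∃ M' : Set (Finset ℕ), IsRuleset (M0 ∪ M') ∧
    limsup (fun x : ℕ => (((count (M0 ∪ M') x : ℝ) / (x : ℝ) ^ (log 2 / log 3) : ℝ) : EReal))
      atTop = ⊤ := by
  refine ⟨M', isRuleset, ?_⟩
  rw [EReal.eq_top_iff_forall_lt]
  intro K
  have hfreq : ∃ᶠ x : ℕ in atTop,
      K + 1 ≤ (count (M0 ∪ M') x : ℝ) / (x : ℝ) ^ (log 2 / log 3) := by
    rw [Filter.frequently_atTop]
    intro N
    obtain ⟨k, hk1, hk2⟩ := ((growth.eventually_ge_atTop (K + 1)).and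
      (eventually_ge_atTop N)).exists
    refine ⟨2 * 3 ^ (k + 1), ?_, hk1.trans ?_⟩
    · have h3 : k < 3 ^ k := Nat.lt_pow_self (by norm_num)
      rw [pow_succ]
      omega
    · apply div_le_div_of_nonneg_right _ (by positivity)
      exact Behrend.roth_lower_bound.trans (by exact_mod_cast count_ge k)
  have h1 : ((K + 1 : ℝ) : EReal) ≤ limsup
      (fun x : ℕ => (((count (M0 ∪ M') x : ℝ) / (x : ℝ) ^ (log 2 / log 3) : ℝ) : EReal)) atTop := by
    apply Filter.le_limsup_of_frequently_le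
    · exact hfreq.mono fun x hx => by exact_mod_cast hx
    · exact Filter.isBoundedUnder_of ⟨⊤, fun _ => le_top⟩
  refine lt_of_lt_of_le ?_ h1
  exact_mod_cast lt_add_one K

end Pool.Agent.Results.MP_c84e26_co.DenserPPositions
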